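import Mathlib

set_option autoImplicit false
set_option linter.unusedVariables false
set_option linter.unusedSimpArgs false
set_option linter.unusedSectionVars false
set_option linter.deprecated false
open Classical Finset

namespace Pool.Agent.TH437.RTK

variable {V : Type*} [Fintype V]

/-- number of neighbours of `x` inside `U` -/
noncomputable def dg (G : SimpleGraph V) (U : Finset V) (x : V) : ℕ :=
  (U.filter (fun y => G.Adj x y)).card

/-- number of ordered adjacent pairs inside `U` -/
noncomputable def Es (G : SimpleGraph V) (U : Finset V) : ℕ := ∑ x ∈ U, dg G U x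

lemma Es_insert (G : SimpleGraph V) (U : Finset V) (v : V) (hv : v ∉ U) :
    Es G (insert v U) = Es G U + 2 * dg G U v := by
  unfold Es
  rw [Finset.sum_insert hv]
  have h1 : dg G (insert v U) v = dg G U v := by
    unfold dg
    rw [Finset.filter_insert, if_neg (G.irrefl)]
  have h2 : ∀ x ∈ U, dg G (insert v U) x = dg G U x + (if G.Adj x v then 1 else 0) := by
    intro x hx
    unfold dg
    rw [Finset.filter_insert]
    by_cases h : G.Adj x v
    · rw [if_pos h, if_pos h, Finset.card_insert_of_notMem]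
      intro hm
      exact hv (Finset.mem_filter.1 hm).1
    · rw [if_neg h, if_neg h]
      simp
  rw [Finset.sum_congr rfl h2, Finset.sum_add_distrib, h1]
  have h3 : ∑ x ∈ U, (if G.Adj x v then 1 else 0) = dg G U v := by
    unfold dg
    rw [Finset.card_filter]
    apply Finset.sum_congr rfl
    intro x hx
    simp [G.adj_comm]
  omega

/-- The potential argument: a set of vertices with large minimum degree inside. -/
lemma exists_core (G : SimpleGraph V) (W : Finset V) (κ : ℝ) :
    ∃ U : Finset V, U ⊆ W ∧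
      ((Es G W : ℝ) - 2 * κ * (W.card : ℝ) ^ 2 ≤ Es G U - 2 * κ * (U.card : ℝ) ^ 2) ∧
      ∀ v ∈ U, κ * (2 * U.card - 1) ≤ dg G U v := by
  obtain ⟨U, hU, hmax⟩ := Finset.exists_max_image W.powerset
    (fun U : Finset V => (Es G U : ℝ) - 2 * κ * (U.card : ℝ) ^ 2) ⟨W, by simp⟩
  refine ⟨U, Finset.mem_powerset.1 hU, hmax W (by simp), ?_⟩
  intro v hv
  have h1 := hmax (U.erase v) (by
    rw [Finset.mem_powerset] at *
    exact (Finset.erase_subset _ _).trans hU)
  have h2 := Es_insert G (U.erase v) v (by simp)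
  rw [Finset.insert_erase hv] at h2
  have h3 : dg G (U.erase v) v = dg G U v := by
    unfold dg
    congr 1
    ext y
    simp only [Finset.mem_filter, Finset.mem_erase]
    constructor
    · rintro ⟨⟨_, h⟩, h'⟩
      exact ⟨h, h'⟩
    · rintro ⟨h, h'⟩
      exact ⟨⟨h'.ne', h⟩, h'⟩
  have h4 : (U.erase v).card + 1 = U.card := Finset.card_erase_add_one hv
  have h5 : ((U.erase v).card : ℝ) = U.card - 1 := by
    rw [← h4]; push_cast; ring
  have h6 : (Es G U : ℝ) = Es G (U.erase v) + 2 * dg G U v := by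
    rw [h2, h3]; push_cast; ring
  rw [h5, h6] at h1
  nlinarith

/-- Average to maximum in a triangle: an edge with large codegree. -/
lemma codeg_edge (G : SimpleGraph V) (U : Finset V) (a : ℕ) (D : ℝ)
    (ha : ∀ S : Finset V, (∀ x ∈ S, ∀ y ∈ S, ¬ G.Adj x y) → S.card ≤ a)
    (hU : U.Nonempty) (hD : ∀ v ∈ U, D ≤ dg G U v) (haD : (a : ℝ) < D) :
    ∃ p ∈ U, ∃ q ∈ U, G.Adj p q ∧
      D - (U.card : ℝ) / 3 ≤ ((U.filter (fun y => G.Adj p y ∧ G.Adj q y)).card : ℝ) := by
  obtain ⟨v, hv⟩ := hU
  have h1 : ¬ (∀ x ∈ U.filter (fun y => G.Adj v y), ∀ y ∈ U.filter (fun y => G.Adj v y),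
      ¬ G.Adj x y) := by
    intro h
    have := ha _ h
    have h2 : ((U.filter (fun y => G.Adj v y)).card : ℝ) ≤ a := by exact_mod_cast this
    have h3 := hD v hv
    unfold dg at h3
    linarith
  push_neg at h1
  obtain ⟨w, hw, x, hx, hwx⟩ := h1
  rw [Finset.mem_filter] at hw hx
  have hsum : ((U.filter (fun y => G.Adj v y)).card : ℝ) + (U.filter (fun y => G.Adj w y)).card
      + (U.filter (fun y => G.Adj x y)).card ≤
      U.card + (U.filter (fun y => G.Adj v y ∧ G.Adj w y)).card
      + (U.filter (fun y => G.Adj v y ∧ G.Adj x y)).card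
      + (U.filter (fun y => G.Adj w y ∧ G.Adj x y)).card := by
    have : (U.filter (fun y => G.Adj v y)).card + (U.filter (fun y => G.Adj w y)).card
      + (U.filter (fun y => G.Adj x y)).card ≤
      U.card + (U.filter (fun y => G.Adj v y ∧ G.Adj w y)).card
      + (U.filter (fun y => G.Adj v y ∧ G.Adj x y)).card
      + (U.filter (fun y => G.Adj w y ∧ G.Adj x y)).card := by
      simp only [Finset.card_filter]
      rw [Finset.card_eq_sum_ones]
      simp only [← Finset.sum_add_distrib]
      apply Finset.sum_le_sum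
      intro y hy
      by_cases h1 : G.Adj v y <;> by_cases h2 : G.Adj w y <;> by_cases h3 : G.Adj x y <;>
        simp [h1, h2, h3]
    exact_mod_cast this
  have d1 := hD v hv
  have d2 := hD w hw.1
  have d3 := hD x hx.1
  unfold dg at d1 d2 d3
  by_cases c1 : D - (U.card : ℝ) / 3 ≤ ((U.filter (fun y => G.Adj v y ∧ G.Adj w y)).card : ℝ)
  · exact ⟨v, hv, w, hw.1, hw.2, c1⟩
  by_cases c2 : D - (U.card : ℝ) / 3 ≤ ((U.filter (fun y => G.Adj v y ∧ G.Adj x y)).card : ℝ)
  · exact ⟨v, hv, x, hx.1, hx.2, c2⟩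
  · refine ⟨w, hw.1, x, hx.1, hwx, ?_⟩
    push_neg at c1 c2
    linarith

/-- In a graph without `K_5` the common neighbourhood of a triangle is independent. -/
lemma triple_le (G : SimpleGraph V) (hK : G.CliqueFree 5) (U : Finset V) (a : ℕ)
    (ha : ∀ S : Finset V, (∀ x ∈ S, ∀ y ∈ S, ¬ G.Adj x y) → S.card ≤ a)
    (p q r : V) (hpq : G.Adj p q) (hpr : G.Adj p r) (hqr : G.Adj q r) :
    (U.filter (fun y => G.Adj p y ∧ G.Adj q y ∧ G.Adj r y)).card ≤ a := by
  apply ha
  intro x hx y hy hxy
  rw [Finset.mem_filter] at hx hy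
  obtain ⟨-, hx1, hx2, hx3⟩ := hx
  obtain ⟨-, hy1, hy2, hy3⟩ := hy
  apply hK {p, q, r, x, y}
  rw [SimpleGraph.isNClique_iff]
  constructor
  · intro s hs t ht hst
    simp only [Finset.coe_insert, Finset.coe_singleton, Set.mem_insert_iff,
      Set.mem_singleton_iff] at hs ht
    rcases hs with rfl | rfl | rfl | rfl | rfl <;> rcases ht with rfl | rfl | rfl | rfl | rfl <;>
      first
        | exact absurd rfl hst
        | assumption
        | (apply SimpleGraph.Adj.symm; assumption)
  · rw [Finset.card_insert_of_notMem, Finset.card_insert_of_notMem,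
      Finset.card_insert_of_notMem, Finset.card_insert_of_notMem]
    · simp
    · simp [hxy.ne]
    · simp [hx3.ne, hy3.ne]
    · simp [hqr.ne, hx2.ne, hy2.ne]
    · simp [hpq.ne, hpr.ne, hx1.ne, hy1.ne]

/-- Almost every vertex sends exactly two edges to a `K_4`. -/
lemma quad (G : SimpleGraph V) (hK : G.CliqueFree 5) (U : Finset V) (a : ℕ) (D : ℝ)
    (ha : ∀ S : Finset V, (∀ x ∈ S, ∀ y ∈ S, ¬ G.Adj x y) → S.card ≤ a)
    (hD : ∀ v ∈ U, D ≤ dg G U v)
    (p q r s : V) (hp : p ∈ U) (hq : q ∈ U) (hr : r ∈ U) (hs : s ∈ U)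
    (hpq : G.Adj p q) (hpr : G.Adj p r) (hps : G.Adj p s) (hqr : G.Adj q r) (hqs : G.Adj q s)
    (hrs : G.Adj r s) :
    ((U.filter (fun y => ¬ ((G.Adj p y ↔ G.Adj q y) ∨ ¬ (G.Adj r y ↔ G.Adj s y)))).card : ℝ)
      ≤ 2 * U.card - 4 * D + 8 * a := by
  have t1 := triple_le G hK U a ha p q r hpq hpr hqr
  have t2 := triple_le G hK U a ha p q s hpq hps hqs
  have t3 := triple_le G hK U a ha p r s hpr hps hrs
  have t4 := triple_le G hK U a ha q r s hqr hqs hrs
  have d1 := hD p hp
  have d2 := hD q hq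
  have d3 := hD r hr
  have d4 := hD s hs
  have key : (U.filter (fun y => ¬ ((G.Adj p y ↔ G.Adj q y) ∨ ¬ (G.Adj r y ↔ G.Adj s y)))).card
      + (dg G U p + dg G U q + dg G U r + dg G U s) ≤
      2 * U.card + 2 * ((U.filter (fun y => G.Adj p y ∧ G.Adj q y ∧ G.Adj r y)).card
      + (U.filter (fun y => G.Adj p y ∧ G.Adj q y ∧ G.Adj s y)).card
      + (U.filter (fun y => G.Adj p y ∧ G.Adj r y ∧ G.Adj s y)).card
      + (U.filter (fun y => G.Adj q y ∧ G.Adj r y ∧ G.Adj s y)).card) := by
    unfold dg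
    simp only [Finset.card_filter]
    rw [Finset.card_eq_sum_ones]
    simp only [← Finset.sum_add_distrib, Finset.mul_sum]
    apply Finset.sum_le_sum
    intro y hy
    by_cases h1 : G.Adj p y <;> by_cases h2 : G.Adj q y <;> by_cases h3 : G.Adj r y <;>
      by_cases h4 : G.Adj s y <;> simp [h1, h2, h3, h4]
  have key' : ((U.filter (fun y => ¬ ((G.Adj p y ↔ G.Adj q y) ∨
      ¬ (G.Adj r y ↔ G.Adj s y)))).card : ℝ)
      + ((dg G U p : ℝ) + dg G U q + dg G U r + dg G U s) ≤
      2 * (U.card : ℝ) + 2 * (a + a + a + a) := by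
    have : (U.filter (fun y => ¬ ((G.Adj p y ↔ G.Adj q y) ∨
      ¬ (G.Adj r y ↔ G.Adj s y)))).card
      + (dg G U p + dg G U q + dg G U r + dg G U s) ≤ 2 * U.card + 2 * (a + a + a + a) := by
      omega
    exact_mod_cast this
  linarith

/-- Greedy separation: if every pair of `M` fails to be separated by at most a `1/K` fraction of
`Y`, and `|M| < K^k`, then `k` elements of `Y` separate all pairs of `M`. -/
lemma separate {W : Type*} (Y : Finset V) (hY : Y.Nonempty) (s : V → W → Prop) (K : ℕ) (hK : 0 < K)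
    (k : ℕ) : ∀ (M : Finset (W × W)),
    (∀ m ∈ M, K * (Y.filter (fun y => (s y m.1 ↔ s y m.2))).card ≤ Y.card) →
    M.card < K ^ k → ∃ f : W → (Fin k → Bool), ∀ m ∈ M, f m.1 ≠ f m.2 := by
  induction k with
  | zero =>
    intro M _ hM
    refine ⟨fun _ => Fin.elim0, ?_⟩
    intro m hm
    have : 0 < M.card := Finset.card_pos.2 ⟨m, hm⟩
    rw [pow_zero] at hM
    omega
  | succ k ih =>
    intro M hbad hM
    obtain ⟨y, hy, hyM⟩ : ∃ y ∈ Y, K * (M.filter (fun m => (s y m.1 ↔ s y m.2))).card ≤ M.card := by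
      by_contra hcon
      push_neg at hcon
      have h1 : ∑ y ∈ Y, M.card < ∑ y ∈ Y, K * (M.filter (fun m => (s y m.1 ↔ s y m.2))).card :=
        Finset.sum_lt_sum_of_nonempty hY hcon
      have h2 : ∑ y ∈ Y, K * (M.filter (fun m => (s y m.1 ↔ s y m.2))).card =
          ∑ m ∈ M, K * (Y.filter (fun y => (s y m.1 ↔ s y m.2))).card := by
        simp only [Finset.card_filter, ← Finset.mul_sum]
        rw [Finset.sum_comm]
      have h3 : ∑ m ∈ M, K * (Y.filter (fun y => (s y m.1 ↔ s y m.2))).card ≤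
          ∑ m ∈ M, Y.card := Finset.sum_le_sum hbad
      rw [h2] at h1
      simp only [Finset.sum_const, smul_eq_mul] at h1 h3
      rw [mul_comm] at h1
      omega
    obtain ⟨f, hf⟩ := ih (M.filter (fun m => (s y m.1 ↔ s y m.2)))
      (fun m hm => hbad m (Finset.mem_filter.1 hm).1) (by
        have : K * (M.filter (fun m => (s y m.1 ↔ s y m.2))).card < K * K ^ k := by
          rw [← pow_succ']; exact lt_of_le_of_lt hyM hM
        exact lt_of_mul_lt_mul_left this (Nat.zero_le _))
    refine ⟨fun w => Fin.cons (decide (s y w)) (f w), ?_⟩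
    intro m hm heq
    have h0 := congrFun heq 0
    simp only [Fin.cons_zero, decide_eq_decide] at h0
    have h1 : f m.1 = f m.2 := by
      funext i
      have := congrFun heq i.succ
      simpa using this
    exact hf m (Finset.mem_filter.2 ⟨hm, h0⟩) h1

/-- The structure theorem: a large triangle-free set. -/
theorem structure_thm (G : SimpleGraph V) (hK5 : G.CliqueFree 5) (U : Finset V) (a : ℕ) (D : ℝ)
    (ha : ∀ S : Finset V, (∀ x ∈ S, ∀ y ∈ S, ¬ G.Adj x y) → S.card ≤ a)
    (hU : U.Nonempty) (hD : ∀ v ∈ U, D ≤ dg G U v) (haD : (a : ℝ) < D) (K k : ℕ) (hK : 0 < K)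
    (hk1 : U.card ^ 2 < K ^ k) (hk2 : ((2 ^ k * a : ℕ) : ℝ) < D - (U.card : ℝ) / 3) :
    ∃ X : Finset V, X ⊆ U ∧ (∀ x ∈ X, ∀ y ∈ X, ∀ z ∈ X, ¬ (G.Adj x y ∧ G.Adj x z ∧ G.Adj y z)) ∧
      D - K * (2 * U.card - 4 * D + 8 * a) / 2 ≤ (X.card : ℝ) ∧
      0 ≤ 2 * (U.card : ℝ) - 4 * D + 8 * a := by
  obtain ⟨p, hp, q, hq, hpq, hcod⟩ := codeg_edge G U a D ha hU hD haD
  set X := U.filter (fun y => G.Adj p y ∧ G.Adj q y) with hX
  have hpos : 0 ≤ 2 * (U.card : ℝ) - 4 * D + 8 * a := by
    have h1 : ¬ (∀ x ∈ X, ∀ y ∈ X, ¬ G.Adj x y) := by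
      intro h
      have h2 := ha _ h
      have h3 : (X.card : ℝ) ≤ a := by exact_mod_cast h2
      have h4 : (a : ℝ) ≤ ((2 ^ k * a : ℕ) : ℝ) := by
        exact_mod_cast Nat.le_mul_of_pos_left a (by positivity)
      linarith
    push_neg at h1
    obtain ⟨x, hx, y, hy, hxy⟩ := h1
    rw [hX, Finset.mem_filter] at hx hy
    have := quad G hK5 U a D ha hD p q x y hp hq hx.1 hy.1 hpq hx.2.1 hy.2.1 hx.2.2 hy.2.2 hxy
    exact le_trans (Nat.cast_nonneg _) this
  refine ⟨X, Finset.filter_subset _ _, ?_, ?_, hpos⟩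
  · intro x hx y hy z hz ⟨hxy, hxz, hyz⟩
    rw [hX, Finset.mem_filter] at hx hy hz
    have h1 : ∀ S : Finset V, True := fun _ => trivial
    apply hK5 {p, q, x, y, z}
    rw [SimpleGraph.isNClique_iff]
    obtain ⟨-, hx1, hx2⟩ := hx
    obtain ⟨-, hy1, hy2⟩ := hy
    obtain ⟨-, hz1, hz2⟩ := hz
    constructor
    · intro s hs t ht hst
      simp only [Finset.coe_insert, Finset.coe_singleton, Set.mem_insert_iff,
        Set.mem_singleton_iff] at hs ht
      rcases hs with rfl | rfl | rfl | rfl | rfl <;> rcases ht with rfl | rfl | rfl | rfl | rfl <;>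
        first
          | exact absurd rfl hst
          | assumption
          | (apply SimpleGraph.Adj.symm; assumption)
    · rw [Finset.card_insert_of_notMem, Finset.card_insert_of_notMem,
        Finset.card_insert_of_notMem, Finset.card_insert_of_notMem]
      · simp
      · simp [hyz.ne]
      · simp [hxy.ne, hxz.ne]
      · simp [hx2.ne, hy2.ne, hz2.ne]
      · simp [hpq.ne, hx1.ne, hy1.ne, hz1.ne]
  · -- the size of X
    set Y := U.filter (fun y => ¬ (G.Adj p y ↔ G.Adj q y)) with hYdef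
    have hcount : (dg G U p : ℝ) + dg G U q = 2 * X.card + Y.card := by
      have : dg G U p + dg G U q = 2 * X.card + Y.card := by
        rw [hX, hYdef]
        unfold dg
        simp only [Finset.card_filter, Finset.mul_sum, ← Finset.sum_add_distrib]
        apply Finset.sum_congr rfl
        intro y hy
        by_cases h1 : G.Adj p y <;> by_cases h2 : G.Adj q y <;> simp [h1, h2]
      exact_mod_cast this
    have d1 := hD p hp
    have d2 := hD q hq
    by_contra hcon
    push_neg at hcon
    have hYbig : (K : ℝ) * (2 * U.card - 4 * D + 8 * a) < Y.card := by linarith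
    have hYne : Y.Nonempty := by
      rw [← Finset.card_pos]
      have : (0 : ℝ) < Y.card := by
        have : (0:ℝ) ≤ (K : ℝ) * (2 * U.card - 4 * D + 8 * a) := by positivity
        linarith
      exact_mod_cast this
    have hM : ((X ×ˢ X).filter (fun m => G.Adj m.1 m.2)).card < K ^ k := by
      calc ((X ×ˢ X).filter (fun m => G.Adj m.1 m.2)).card ≤ (X ×ˢ X).card :=
            Finset.card_filter_le _ _
        _ = X.card ^ 2 := by rw [Finset.card_product]; ring
        _ ≤ U.card ^ 2 := Nat.pow_le_pow_left (Finset.card_le_card (Finset.filter_subset _ _)) 2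
        _ < K ^ k := hk1
    obtain ⟨f, hf⟩ := separate Y hYne (fun y w => G.Adj y w) K hK k
      ((X ×ˢ X).filter (fun m => G.Adj m.1 m.2)) (by
        intro m hm
        rw [Finset.mem_filter, Finset.mem_product] at hm
        obtain ⟨⟨hm1, hm2⟩, hadj⟩ := hm
        rw [hX, Finset.mem_filter] at hm1 hm2
        have hq' := quad G hK5 U a D ha hD p q m.1 m.2 hp hq hm1.1 hm2.1 hpq hm1.2.1 hm2.2.1
          hm1.2.2 hm2.2.2 hadj
        have hsub : (Y.filter (fun y => (G.Adj y m.1 ↔ G.Adj y m.2))).card ≤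
            (U.filter (fun y => ¬ ((G.Adj p y ↔ G.Adj q y) ∨
              ¬ (G.Adj m.1 y ↔ G.Adj m.2 y)))).card := by
          apply Finset.card_le_card
          intro y hy
          rw [Finset.mem_filter, hYdef, Finset.mem_filter] at hy
          rw [Finset.mem_filter]
          refine ⟨hy.1.1, ?_⟩
          intro h
          rcases h with h | h
          · exact hy.1.2 h
          · apply h
            rw [G.adj_comm m.1 y, G.adj_comm m.2 y]
            exact hy.2
        have hsub' : ((Y.filter (fun y => (G.Adj y m.1 ↔ G.Adj y m.2))).card : ℝ) ≤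
            2 * U.card - 4 * D + 8 * a := le_trans (by exact_mod_cast hsub) hq'
        have hfin : (K : ℝ) * ((Y.filter (fun y => (G.Adj y m.1 ↔ G.Adj y m.2))).card : ℝ) ≤
            Y.card := by
          have := mul_le_mul_of_nonneg_left hsub' (Nat.cast_nonneg K : (0:ℝ) ≤ K)
          linarith
        exact_mod_cast hfin) hM
    have hXc : X.card ≤ 2 ^ k * a := by
      have h1 : X.card ≤ ∑ c : (Fin k → Bool), (X.filter (fun x => f x = c)).card := by
        rw [← Finset.card_eq_sum_card_fiberwise (f := f) (t := Finset.univ)]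
        intro x _
        exact Finset.mem_coe.2 (Finset.mem_univ _)
      have h2 : ∑ c : (Fin k → Bool), (X.filter (fun x => f x = c)).card ≤
          ∑ c : (Fin k → Bool), a := by
        apply Finset.sum_le_sum
        intro c _
        apply ha
        intro x hx y hy hxy
        rw [Finset.mem_filter] at hx hy
        apply hf (x, y) (Finset.mem_filter.2 ⟨Finset.mem_product.2 ⟨hx.1, hy.1⟩, hxy⟩)
        rw [hx.2, hy.2]
      have h3 : ∑ c : (Fin k → Bool), a = 2 ^ k * a := by
        simp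
      omega
    have : (X.card : ℝ) ≤ ((2 ^ k * a : ℕ) : ℝ) := by exact_mod_cast hXc
    linarith

end Pool.Agent.TH437.RTK
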