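import Mathlib

set_option autoImplicit false
set_option linter.unusedVariables false
set_option linter.unusedSimpArgs false
set_option linter.unusedSectionVars false
open Classical Finset

namespace Pool.Agent.TH437.RTK

/-- `Q t m`: the least independence number of a graph on `m` vertices without `K_t`. -/
noncomputable def Q (t m : ℕ) : ℕ :=
  sInf {a | ∃ G : SimpleGraph (Fin m), G.CliqueFree t ∧ G.indepNum = a}

/-- some triangle-free graph on `m` vertices has all independent sets of size at most `a` -/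
def TF (m a : ℕ) : Prop :=
  ∃ G : SimpleGraph (Fin m), (∀ x y z, ¬ (G.Adj x y ∧ G.Adj x z ∧ G.Adj y z)) ∧
    ∀ S : Finset (Fin m), (∀ x ∈ S, ∀ y ∈ S, ¬ G.Adj x y) → S.card ≤ a

lemma cf3 {V : Type*} (G : SimpleGraph V) :
    G.CliqueFree 3 ↔ ∀ x y z, ¬ (G.Adj x y ∧ G.Adj x z ∧ G.Adj y z) := by
  constructor
  · intro h x y z ⟨h1, h2, h3⟩
    exact h {x, y, z} (SimpleGraph.is3Clique_triple_iff.2 ⟨h1, h2, h3⟩)
  · intro h s hs
    obtain ⟨a, b, c, h1, h2, h3, -⟩ := SimpleGraph.is3Clique_iff.1 hs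
    exact h a b c ⟨h1, h2, h3⟩

lemma Q_le_iff (m a : ℕ) : Q 3 m ≤ a ↔ TF m a := by
  constructor
  · intro h
    have hne : {a | ∃ G : SimpleGraph (Fin m), G.CliqueFree 3 ∧ G.indepNum = a}.Nonempty :=
      ⟨_, ⊥, SimpleGraph.cliqueFree_bot (by norm_num), rfl⟩
    obtain ⟨G, hG, hGa⟩ := Nat.sInf_mem hne
    refine ⟨G, (cf3 G).1 hG, ?_⟩
    intro S hS
    have h1 : G.IsIndepSet (S : Set (Fin m)) := by
      intro x hx y hy _
      exact hS x hx y hy
    have h2 := h1.card_le_indepNum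
    have h3 : G.indepNum ≤ a := by
      rw [hGa]; exact h
    omega
  · rintro ⟨G, hG, hS⟩
    obtain ⟨S, hS1⟩ := G.exists_isNIndepSet_indepNum
    have h1 : G.indepNum ≤ a := by
      rw [← hS1.card_eq]
      apply hS
      intro x hx y hy hxy
      exact hS1.isIndepSet hx hy hxy.ne hxy
    exact le_trans (Nat.sInf_le ⟨G, (cf3 G).2 hG, rfl⟩) h1

lemma TF_Q (m : ℕ) : TF m (Q 3 m) := (Q_le_iff m _).1 le_rfl

lemma TF_of {W : Type*} [Fintype W] (G : SimpleGraph W) (m a : ℕ)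
    (hm : m ≤ Fintype.card W)
    (h3 : ∀ x y z, ¬ (G.Adj x y ∧ G.Adj x z ∧ G.Adj y z))
    (ha : ∀ S : Finset W, (∀ x ∈ S, ∀ y ∈ S, ¬ G.Adj x y) → S.card ≤ a) : TF m a := by
  obtain ⟨e⟩ : Nonempty (Fin m ↪ W) := by
    apply Function.Embedding.nonempty_of_card_le
    simpa using hm
  refine ⟨G.comap e, ?_, ?_⟩
  · intro x y z h
    exact h3 _ _ _ h
  · intro S hS
    rw [← Finset.card_map e]
    apply ha
    intro x hx y hy
    rw [Finset.mem_map] at hx hy
    obtain ⟨x', hx', rfl⟩ := hx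
    obtain ⟨y', hy', rfl⟩ := hy
    exact hS x' hx' y' hy'

/-- version for a finset of vertices -/
lemma TF_of_finset {W : Type*} [Fintype W] (G : SimpleGraph W) (X : Finset W) (m a : ℕ)
    (hm : m ≤ X.card)
    (h3 : ∀ x ∈ X, ∀ y ∈ X, ∀ z ∈ X, ¬ (G.Adj x y ∧ G.Adj x z ∧ G.Adj y z))
    (ha : ∀ S : Finset W, (∀ x ∈ S, ∀ y ∈ S, ¬ G.Adj x y) → S.card ≤ a) : TF m a := by
  apply TF_of (G.comap (Subtype.val : {x // x ∈ X} → W)) m a (by simpa using hm)
  · intro x y z h
    exact h3 _ x.2 _ y.2 _ z.2 h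
  · intro S hS
    rw [← Finset.card_map (Function.Embedding.subtype _)]
    apply ha
    intro x hx y hy
    rw [Finset.mem_map] at hx hy
    obtain ⟨x', hx', rfl⟩ := hx
    obtain ⟨y', hy', rfl⟩ := hy
    exact hS x' hx' y' hy'

lemma TF_mono {m m' a a' : ℕ} (hm : m' ≤ m) (ha : a ≤ a') (h : TF m a) : TF m' a' := by
  obtain ⟨G, h1, h2⟩ := h
  exact TF_of G m' a' (by simpa using hm) h1 (fun S hS => (h2 S hS).trans ha)

lemma Q_mono {m m' : ℕ} (hm : m' ≤ m) : Q 3 m' ≤ Q 3 m :=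
  (Q_le_iff _ _).2 (TF_mono hm le_rfl (TF_Q m))

lemma TF_add {m m' a a' : ℕ} (h : TF m a) (h' : TF m' a') : TF (m + m') (a + a') := by
  obtain ⟨G, h1, h2⟩ := h
  obtain ⟨G', h1', h2'⟩ := h'
  have hG : ∀ x y, (G ⊕g G').Adj (Sum.inl x) (Sum.inl y) ↔ G.Adj x y := by
    intro x y; simp
  have hG' : ∀ x y, (G ⊕g G').Adj (Sum.inr x) (Sum.inr y) ↔ G'.Adj x y := by
    intro x y; simp
  have hc : ∀ x y, ¬ (G ⊕g G').Adj (Sum.inl x) (Sum.inr y) := by
    intro x y; simp
  have hc' : ∀ x y, ¬ (G ⊕g G').Adj (Sum.inr x) (Sum.inl y) := by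
    intro x y; simp
  apply TF_of (G ⊕g G') (m + m') (a + a') (by simp)
  · rintro (x | x) (y | y) (z | z) ⟨e1, e2, e3⟩
    · exact h1 x y z ⟨(hG _ _).1 e1, (hG _ _).1 e2, (hG _ _).1 e3⟩
    · exact hc _ _ e2
    · exact hc _ _ e1
    · exact hc _ _ e1
    · exact hc' _ _ e1
    · exact hc' _ _ e1
    · exact hc' _ _ e2
    · exact h1' x y z ⟨(hG' _ _).1 e1, (hG' _ _).1 e2, (hG' _ _).1 e3⟩
  · intro S hS
    have hcard : S.card = S.toLeft.card + S.toRight.card := by
      rw [Finset.card_toLeft_add_card_toRight]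
    have hl : S.toLeft.card ≤ a := by
      apply h2
      intro x hx y hy hxy
      rw [Finset.mem_toLeft] at hx hy
      exact hS _ hx _ hy ((hG _ _).2 hxy)
    have hr : S.toRight.card ≤ a' := by
      apply h2'
      intro x hx y hy hxy
      rw [Finset.mem_toRight] at hx hy
      exact hS _ hx _ hy ((hG' _ _).2 hxy)
    omega

lemma Q_add (m m' : ℕ) : Q 3 (m + m') ≤ Q 3 m + Q 3 m' :=
  (Q_le_iff _ _).2 (TF_add (TF_Q m) (TF_Q m'))

lemma TF_sq {m a : ℕ} (h : TF m a) : m ≤ a * (a + 1) := by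
  obtain ⟨G, h1, h2⟩ := h
  obtain ⟨I, hI⟩ : ∃ I : Finset (Fin m), (∀ x ∈ I, ∀ y ∈ I, ¬ G.Adj x y) ∧
      ∀ J : Finset (Fin m), (∀ x ∈ J, ∀ y ∈ J, ¬ G.Adj x y) → J.card ≤ I.card := by
    obtain ⟨I, hI, hmax⟩ := Finset.exists_max_image
      ((Finset.univ : Finset (Finset (Fin m))).filter (fun I => ∀ x ∈ I, ∀ y ∈ I, ¬ G.Adj x y))
      Finset.card ⟨∅, by simp⟩
    refine ⟨I, (Finset.mem_filter.1 hI).2, ?_⟩
    intro J hJ
    exact hmax J (by simpa using hJ)
  obtain ⟨hI1, hI2⟩ := hI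
  have hcov : (Finset.univ : Finset (Fin m)) ⊆
      I ∪ I.biUnion (fun v => Finset.univ.filter (fun y => G.Adj v y)) := by
    intro y _
    by_contra hy
    rw [Finset.mem_union, not_or] at hy
    obtain ⟨hy1, hy2⟩ := hy
    have hno : ∀ v ∈ I, ¬ G.Adj v y := by
      intro v hv hvy
      apply hy2
      rw [Finset.mem_biUnion]
      exact ⟨v, hv, by simp [hvy]⟩
    have := hI2 (insert y I) (by
      intro u hu w hw huw
      rw [Finset.mem_insert] at hu hw
      rcases hu with rfl | hu <;> rcases hw with rfl | hw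
      · exact G.irrefl huw
      · exact hno w hw huw.symm
      · exact hno u hu huw
      · exact hI1 u hu w hw huw)
    rw [Finset.card_insert_of_notMem hy1] at this
    omega
  have hc := Finset.card_le_card hcov
  have hIa : I.card ≤ a := h2 I hI1
  have hb : (I.biUnion (fun v => Finset.univ.filter (fun y => G.Adj v y))).card ≤ I.card * a := by
    apply Finset.card_biUnion_le_card_mul
    intro v _
    apply h2
    intro x hx y hy hxy
    rw [Finset.mem_filter] at hx hy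
    exact h1 v x y ⟨hx.2, hy.2, hxy⟩
  have hu := Finset.card_union_le I (I.biUnion (fun v => Finset.univ.filter (fun y => G.Adj v y)))
  rw [Finset.card_univ, Fintype.card_fin] at hc
  have : I.card * a ≤ a * a := Nat.mul_le_mul_right a hIa
  nlinarith

/-! ### A triangle-free graph on the flags of the affine plane -/

section Flags

variable (q : ℕ) [Fact q.Prime]

/-- the ordered relation on flags (point `(x, s x + b)`, line `(s, b)`) -/
def arc (f g : ZMod q × ZMod q × ZMod q) : Prop :=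
  f.1.val < g.1.val ∧ f.2.1.val < g.2.1.val ∧ f.2.1 * f.1 + f.2.2 = g.2.1 * f.1 + g.2.2

/-- the flag graph -/
def flagG : SimpleGraph (ZMod q × ZMod q × ZMod q) where
  Adj f g := arc q f g ∨ arc q g f
  symm := ⟨fun f g h => h.symm⟩
  loopless := ⟨fun f h => by
    rcases h with h | h <;> exact lt_irrefl _ h.1⟩

lemma no_arc_tri (f g h : ZMod q × ZMod q × ZMod q) (h1 : arc q f g) (h2 : arc q f h)
    (h3 : arc q g h) : False := by
  obtain ⟨a1, b1, c1⟩ := h1
  obtain ⟨a2, b2, c2⟩ := h2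
  obtain ⟨a3, b3, c3⟩ := h3
  have h4 : (g.2.1 - h.2.1) * (g.1 - f.1) = 0 := by
    linear_combination c3 + c1 - c2
  rcases mul_eq_zero.1 h4 with h5 | h5
  · have : g.2.1 = h.2.1 := sub_eq_zero.1 h5
    rw [this] at b3
    exact lt_irrefl _ b3
  · have : g.1 = f.1 := sub_eq_zero.1 h5
    rw [this] at a1
    exact lt_irrefl _ a1

lemma flag_tri (x y z : ZMod q × ZMod q × ZMod q) :
    ¬ ((flagG q).Adj x y ∧ (flagG q).Adj x z ∧ (flagG q).Adj y z) := by
  rintro ⟨h1 | h1, h2 | h2, h3 | h3⟩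
  · exact no_arc_tri q x y z h1 h2 h3
  · exact no_arc_tri q x z y h2 h1 h3
  · have := h1.1; have := h2.1; have := h3.1; omega
  · exact no_arc_tri q z x y h2 h3 h1
  · exact no_arc_tri q y x z h1 h3 h2
  · have := h1.1; have := h2.1; have := h3.1; omega
  · exact no_arc_tri q y z x h3 h1 h2
  · exact no_arc_tri q z y x h3 h2 h1

lemma flag_indep (S : Finset (ZMod q × ZMod q × ZMod q))
    (hS : ∀ x ∈ S, ∀ y ∈ S, ¬ (flagG q).Adj x y) : S.card ≤ 2 * q ^ 2 := by
  set A := S.filter (fun f => ∀ g ∈ S, g.1 = f.1 → g.2.1 * g.1 + g.2.2 = f.2.1 * f.1 + f.2.2 →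
    f.2.1.val ≤ g.2.1.val) with hA
  set B := S.filter (fun f => ∀ g ∈ S, g.2 = f.2 → g.1.val ≤ f.1.val) with hB
  have hcov : S ⊆ A ∪ B := by
    intro f hf
    by_contra hcon
    rw [Finset.mem_union, not_or, hA, hB, Finset.mem_filter, Finset.mem_filter] at hcon
    obtain ⟨c1, c2⟩ := hcon
    have c1' : ¬ ∀ g ∈ S, g.1 = f.1 → g.2.1 * g.1 + g.2.2 = f.2.1 * f.1 + f.2.2 →
      f.2.1.val ≤ g.2.1.val := fun h => c1 ⟨hf, h⟩
    have c2' : ¬ ∀ g ∈ S, g.2 = f.2 → g.1.val ≤ f.1.val := fun h => c2 ⟨hf, h⟩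
    push Not at c1' c2'
    obtain ⟨g, hg, hg1, hg2, hg3⟩ := c1'
    obtain ⟨h, hh, hh1, hh2⟩ := c2'
    apply hS g hg h hh
    left
    refine ⟨?_, ?_, ?_⟩
    · rw [hg1]; exact hh2
    · rw [hh1]; exact hg3
    · rw [hg2, hh1, hg1]
  have hAc : A.card ≤ q ^ 2 := by
    have : A.card ≤ (Finset.univ : Finset (ZMod q × ZMod q)).card := by
      apply Finset.card_le_card_of_injOn (fun f => (f.1, f.2.1 * f.1 + f.2.2))
      · intro f _; simp
      · intro f hf g hg hfg
        rw [Finset.mem_coe, hA, Finset.mem_filter] at hf hg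
        simp only [Prod.mk.injEq] at hfg
        have e1 := hf.2 g hg.1 hfg.1.symm hfg.2.symm
        have e2 := hg.2 f hf.1 hfg.1 hfg.2
        have e3 : f.2.1 = g.2.1 := ZMod.val_injective q (le_antisymm e1 e2)
        have e4 : f.2.2 = g.2.2 := by
          have := hfg.2
          rw [e3, hfg.1] at this
          exact add_left_cancel this
        exact Prod.ext hfg.1 (Prod.ext e3 e4)
    rw [Finset.card_univ, Fintype.card_prod, ZMod.card] at this
    rw [pow_two]; exact this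
  have hBc : B.card ≤ q ^ 2 := by
    have : B.card ≤ (Finset.univ : Finset (ZMod q × ZMod q)).card := by
      apply Finset.card_le_card_of_injOn (fun f => f.2)
      · intro f _; simp
      · intro f hf g hg hfg
        rw [Finset.mem_coe, hB, Finset.mem_filter] at hf hg
        simp only at hfg
        have e1 := hf.2 g hg.1 hfg.symm
        have e2 := hg.2 f hf.1 hfg
        exact Prod.ext (ZMod.val_injective q (le_antisymm e2 e1)) hfg
    rw [Finset.card_univ, Fintype.card_prod, ZMod.card] at this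
    rw [pow_two]; exact this
  have := Finset.card_le_card hcov
  have h2 := Finset.card_union_le A B
  omega

end Flags

lemma TF_flag (q : ℕ) (hq : q.Prime) : TF (q ^ 3) (2 * q ^ 2) := by
  haveI : Fact q.Prime := ⟨hq⟩
  apply TF_of (flagG q) (q ^ 3) (2 * q ^ 2)
  · rw [Fintype.card_prod, Fintype.card_prod, ZMod.card]
    ring_nf
    exact le_rfl
  · exact flag_tri q
  · exact flag_indep q

lemma Q_poly (m t : ℕ) (h : m < (t + 1) ^ 6) : Q 3 m ≤ 8 * (t + 1) ^ 4 := by
  obtain ⟨q, hq, hq1, hq2⟩ := Nat.exists_prime_lt_and_le_two_mul ((t + 1) ^ 2) (by positivity)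
  rw [Q_le_iff]
  apply TF_mono _ _ (TF_flag q hq)
  · calc m ≤ (t + 1) ^ 6 := h.le
      _ = ((t + 1) ^ 2) ^ 3 := by ring
      _ ≤ q ^ 3 := Nat.pow_le_pow_left hq1.le 3
  · calc 2 * q ^ 2 ≤ 2 * (2 * (t + 1) ^ 2) ^ 2 := by gcongr
      _ = 8 * (t + 1) ^ 4 := by ring

end Pool.Agent.TH437.RTK
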