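import Mathlib
import Pool.Agent.TH437.RTK.Core
import Pool.Agent.TH437.RTK.Q

set_option autoImplicit false
set_option linter.unusedVariables false
set_option linter.unusedSimpArgs false
set_option linter.unusedSectionVars false
set_option maxHeartbeats 4000000
open Classical Finset

namespace Pool.Agent.TH437.RTK

variable {V : Type*} [Fintype V]

lemma Es_le_sq (G : SimpleGraph V) (U : Finset V) : (Es G U : ℝ) ≤ (U.card : ℝ) ^ 2 := by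
  have : Es G U ≤ U.card * U.card := by
    unfold Es
    calc ∑ x ∈ U, dg G U x ≤ ∑ x ∈ U, U.card :=
          Finset.sum_le_sum (fun x _ => Finset.card_filter_le _ _)
      _ = U.card * U.card := by simp
  have h2 : (Es G U : ℝ) ≤ (U.card : ℝ) * U.card := by exact_mod_cast this
  rw [pow_two]; exact h2

lemma upper (G : SimpleGraph V) (hK5 : G.CliqueFree 5) (a K k : ℕ) (hK : 0 < K)
    (ha : ∀ S : Finset V, (∀ x ∈ S, ∀ y ∈ S, ¬ G.Adj x y) → S.card ≤ a)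
    (hk : Fintype.card V ^ 2 < K ^ k) (W : Finset V) (θ : ℝ) (hθ : 0 < θ) (hθ1 : θ ≤ 1)
    (h1 : ((2 ^ k * a : ℕ) : ℝ) < θ * W.card / 6 - 1)
    (h2 : 8 * (a : ℝ) + 3 < 4 * θ ^ 3 * W.card) :
    (Es G W : ℝ) ≤ (1 / 2 + 2 * θ ^ 2) * (W.card : ℝ) ^ 2 := by
  by_contra hcon
  push Not at hcon
  obtain ⟨U, hUW, hpot, hmin⟩ := exists_core G W (1 / 4 + θ ^ 2 / 2)
  have hθ2 : θ ^ 2 ≤ 1 := by nlinarith
  have hu1 : θ ^ 2 * (W.card : ℝ) ^ 2 ≤ (U.card : ℝ) ^ 2 := by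
    have := Es_le_sq G U
    have : 0 ≤ (U.card : ℝ) ^ 2 := by positivity
    have h0 : 0 ≤ θ ^ 2 * (U.card : ℝ) ^ 2 := by positivity
    nlinarith
  have hu : θ * (W.card : ℝ) ≤ U.card := by
    have h0 : (θ * (W.card : ℝ)) ^ 2 ≤ (U.card : ℝ) ^ 2 := by
      rw [mul_pow]; exact hu1
    exact le_of_sq_le_sq h0 (Nat.cast_nonneg _)
  have hupos : (0 : ℝ) < U.card := by
    have : (0 : ℝ) ≤ ((2 ^ k * a : ℕ) : ℝ) := Nat.cast_nonneg _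
    linarith
  have hUne : U.Nonempty := by
    rw [← Finset.card_pos]; exact_mod_cast hupos
  have haK : (a : ℝ) ≤ ((2 ^ k * a : ℕ) : ℝ) := by
    exact_mod_cast Nat.le_mul_of_pos_left a (by positivity)
  have hUV : U.card ^ 2 < K ^ k :=
    lt_of_le_of_lt (Nat.pow_le_pow_left (Finset.card_le_univ _) 2) hk
  have hDlow : (U.card : ℝ) / 2 - 1 ≤ (1 / 4 + θ ^ 2 / 2) * (2 * U.card - 1) := by
    have : 0 ≤ θ ^ 2 * (U.card : ℝ) := by positivity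
    nlinarith
  obtain ⟨X, -, -, -, hfin⟩ := structure_thm G hK5 U a ((1 / 4 + θ ^ 2 / 2) * (2 * U.card - 1))
    ha hUne hmin (by linarith) K k hK hUV (by linarith)
  have h3 : 4 * θ ^ 3 * (W.card : ℝ) ≤ 4 * θ ^ 2 * U.card := by
    have := mul_le_mul_of_nonneg_left hu (by positivity : (0:ℝ) ≤ 4 * θ ^ 2)
    calc 4 * θ ^ 3 * (W.card : ℝ) = 4 * θ ^ 2 * (θ * W.card) := by ring
      _ ≤ _ := this
  nlinarith

lemma alg_u1 (ζ θ n u E : ℝ) (hζs : ζ ^ 2 ≤ 1 / 4) (hE : E ≤ u ^ 2)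
    (hδ : θ ^ 2 * n ^ 2 ≤ ζ ^ 2 * n ^ 2 / 8) (hζn : 0 ≤ ζ ^ 2 * n ^ 2)
    (h3 : (1 / 2 - 2 * θ ^ 2) * n ^ 2 - 2 * (1 / 4 - ζ ^ 2) * n ^ 2 ≤
        E - 2 * (1 / 4 - ζ ^ 2) * u ^ 2) : ζ ^ 2 * n ^ 2 ≤ u ^ 2 := by
  have h1 : ζ ^ 2 * u ^ 2 ≤ 1 / 4 * u ^ 2 := mul_le_mul_of_nonneg_right hζs (sq_nonneg _)
  linarith

lemma alg_u2 (γ ζ θ n u E : ℝ) (hγ : 0 < γ) (hγ1 : γ ≤ 1 / 2) (hζ : 0 < ζ)
    (hθ2 : θ ^ 2 = ζ ^ 2 * γ / 4)
    (hE : E ≤ (1 / 2 + 2 * θ ^ 2) * u ^ 2)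
    (h3 : (1 / 2 - 2 * θ ^ 2) * n ^ 2 - 2 * (1 / 4 - ζ ^ 2) * n ^ 2 ≤
        E - 2 * (1 / 4 - ζ ^ 2) * u ^ 2) : ((1 - γ / 4) * n) ^ 2 ≤ u ^ 2 := by
  rw [mul_pow]
  have h3' : (2 * ζ ^ 2 - 2 * θ ^ 2) * n ^ 2 ≤ (2 * ζ ^ 2 + 2 * θ ^ 2) * u ^ 2 := by
    linarith
  rw [hθ2] at h3'
  have h4 : (1 - γ / 4) * n ^ 2 ≤ (1 + γ / 4) * u ^ 2 := by
    have hz : 0 < 2 * ζ ^ 2 := by positivity
    have : 2 * ζ ^ 2 * ((1 - γ / 4) * n ^ 2) ≤ 2 * ζ ^ 2 * ((1 + γ / 4) * u ^ 2) := by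
      calc 2 * ζ ^ 2 * ((1 - γ / 4) * n ^ 2) = (2 * ζ ^ 2 - 2 * (ζ ^ 2 * γ / 4)) * n ^ 2 := by ring
        _ ≤ (2 * ζ ^ 2 + 2 * (ζ ^ 2 * γ / 4)) * u ^ 2 := h3'
        _ = _ := by ring
    exact le_of_mul_le_mul_left this hz
  have h6 : (1 - γ / 4) * (1 + γ / 4) ≤ 1 := by nlinarith
  have h7 : 0 ≤ (1 - γ / 4) * n ^ 2 := mul_nonneg (by linarith) (sq_nonneg _)
  have h5 : (1 - γ / 4) ^ 2 * n ^ 2 * (1 + γ / 4) ≤ u ^ 2 * (1 + γ / 4) := by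
    calc (1 - γ / 4) ^ 2 * n ^ 2 * (1 + γ / 4)
        = ((1 - γ / 4) * n ^ 2) * ((1 - γ / 4) * (1 + γ / 4)) := by ring
      _ ≤ ((1 - γ / 4) * n ^ 2) * 1 := mul_le_mul_of_nonneg_left h6 h7
      _ ≤ u ^ 2 * (1 + γ / 4) := by linarith
  exact le_of_mul_le_mul_right h5 (by linarith)

lemma alg_fin (γ ζ n u a b x : ℝ) (hγ : 0 < γ) (hγ1 : γ ≤ 1 / 2)
    (hζ2 : ζ ^ 2 = γ / 200000) (hu0 : 0 ≤ u) (hn0 : 0 < n) (ha0 : 0 ≤ a) (hab : a ≤ b)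
    (f4 : 100000 * (b + 1) < γ * n) (hu2 : (1 - γ / 4) * n ≤ u)
    (hX2 : (1 / 4 - ζ ^ 2) * (2 * u - 1) -
      8192 * (2 * u - 4 * ((1 / 4 - ζ ^ 2) * (2 * u - 1)) + 8 * a) / 2 ≤ x) :
    (1 / 2 - γ) * n ≤ x := by
  rw [hζ2] at hX2
  have h11 : (1 / 2 - γ / 4) * u - 4097 - 32768 * a ≤ x := by
    have hγu : 0 ≤ γ * u := by positivity
    nlinarith
  have h12 : (1 / 2 - γ / 4) * ((1 - γ / 4) * n) ≤ (1 / 2 - γ / 4) * u :=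
    mul_le_mul_of_nonneg_left hu2 (by linarith)
  have h13 : (1 / 2 - γ / 4 - γ / 8) * n ≤ (1 / 2 - γ / 4) * ((1 - γ / 4) * n) := by
    have : 0 ≤ γ / 4 * (γ / 4) * n := by positivity
    linarith
  linarith

theorem stab (γ : ℝ) (hγ : 0 < γ) (hγ1 : γ ≤ 1 / 2) :
    ∃ δ : ℝ, 0 < δ ∧ ∃ C : ℕ, 0 < C ∧ ∀ {V : Type} [Fintype V] (G : SimpleGraph V) (a k : ℕ),
      G.CliqueFree 5 →
      (∀ S : Finset V, (∀ x ∈ S, ∀ y ∈ S, ¬ G.Adj x y) → S.card ≤ a) →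
      Fintype.card V ^ 2 < 8192 ^ k → C * (2 ^ k * a + 1) ≤ Fintype.card V →
      (1 / 2 - 2 * δ) * (Fintype.card V : ℝ) ^ 2 ≤ Es G Finset.univ →
      ∃ X : Finset V,
        (∀ x ∈ X, ∀ y ∈ X, ∀ z ∈ X, ¬ (G.Adj x y ∧ G.Adj x z ∧ G.Adj y z)) ∧
        (1 / 2 - γ) * (Fintype.card V : ℝ) ≤ X.card := by
  -- ζ² = γ / 200000, θ² = ζ² γ / 4
  obtain ⟨ζ, hζ, hζ2⟩ : ∃ ζ : ℝ, 0 < ζ ∧ ζ ^ 2 = γ / 200000 :=
    ⟨Real.sqrt (γ / 200000), Real.sqrt_pos.2 (by positivity), Real.sq_sqrt (by positivity)⟩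
  obtain ⟨θ, hθ, hθ2⟩ : ∃ θ : ℝ, 0 < θ ∧ θ ^ 2 = ζ ^ 2 * γ / 4 :=
    ⟨Real.sqrt (ζ ^ 2 * γ / 4), Real.sqrt_pos.2 (by positivity), Real.sq_sqrt (by positivity)⟩
  have hζ1 : ζ ≤ 1 := by nlinarith
  have hθ1 : θ ≤ 1 := by nlinarith
  obtain ⟨C, hC⟩ := exists_nat_gt (6 / (θ * ζ) + 12 / (4 * θ ^ 3 * ζ) + 100 / ζ + 100000 / γ)
  have e1 : 0 < 6 / (θ * ζ) := by positivity
  have e2 : 0 < 12 / (4 * θ ^ 3 * ζ) := by positivity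
  have e3 : 0 < 100 / ζ := by positivity
  have e4 : 0 < 100000 / γ := by positivity
  refine ⟨θ ^ 2, by positivity, C, ?_, ?_⟩
  · have : (0 : ℝ) < C := by linarith
    exact_mod_cast this
  intro V _ G a k hK5 ha hk hC2 hE
  set n : ℝ := (Fintype.card V : ℝ) with hn
  have hCn : (C : ℝ) * (((2 ^ k * a : ℕ) : ℝ) + 1) ≤ n := by
    rw [hn]; exact_mod_cast hC2
  have haK : (a : ℝ) ≤ ((2 ^ k * a : ℕ) : ℝ) := by
    exact_mod_cast Nat.le_mul_of_pos_left a (by positivity)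
  set b : ℝ := ((2 ^ k * a : ℕ) : ℝ) with hb
  have hb0 : 0 ≤ b := Nat.cast_nonneg _
  have ha0 : (0:ℝ) ≤ a := Nat.cast_nonneg _
  have hb1 : 0 < b + 1 := by linarith
  -- consequences
  have f1 : 6 * (b + 1) < θ * ζ * n := by
    have h : 6 / (θ * ζ) < C := by linarith
    rw [div_lt_iff₀ (by positivity)] at h
    have h' := mul_lt_mul_of_pos_right h hb1
    have h'' := mul_le_mul_of_nonneg_left hCn (by positivity : (0:ℝ) ≤ θ * ζ)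
    nlinarith
  have f2 : 12 * (b + 1) < 4 * θ ^ 3 * ζ * n := by
    have h : 12 / (4 * θ ^ 3 * ζ) < C := by linarith
    rw [div_lt_iff₀ (by positivity)] at h
    have h' := mul_lt_mul_of_pos_right h hb1
    have h'' := mul_le_mul_of_nonneg_left hCn (by positivity : (0:ℝ) ≤ 4 * θ ^ 3 * ζ)
    nlinarith
  have f3 : 100 * (b + 1) < ζ * n := by
    have h : 100 / ζ < C := by linarith
    rw [div_lt_iff₀ (by positivity)] at h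
    have h' := mul_lt_mul_of_pos_right h hb1
    have h'' := mul_le_mul_of_nonneg_left hCn (by positivity : (0:ℝ) ≤ ζ)
    nlinarith
  have f4 : 100000 * (b + 1) < γ * n := by
    have h : 100000 / γ < C := by linarith
    rw [div_lt_iff₀ (by positivity)] at h
    have h' := mul_lt_mul_of_pos_right h hb1
    have h'' := mul_le_mul_of_nonneg_left hCn (by positivity : (0:ℝ) ≤ γ)
    nlinarith
  have hn0 : 0 < n := by nlinarith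
  obtain ⟨U, -, hpot, hmin⟩ := exists_core G Finset.univ (1 / 4 - ζ ^ 2)
  rw [Finset.card_univ, ← hn] at hpot
  set u : ℝ := (U.card : ℝ) with hu
  have hu0 : 0 ≤ u := Nat.cast_nonneg _
  have hζn : 0 ≤ ζ ^ 2 * n ^ 2 := by positivity
  have hδ : θ ^ 2 * n ^ 2 ≤ ζ ^ 2 * n ^ 2 / 8 := by
    rw [hθ2]
    have : ζ ^ 2 * γ / 4 * n ^ 2 = ζ ^ 2 * n ^ 2 * (γ / 4) := by ring
    rw [this]
    nlinarith
  have hEU := Es_le_sq G U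
  have hζs : ζ ^ 2 ≤ 1 / 400000 := by rw [hζ2]; linarith
  have h3 : (1 / 2 - 2 * θ ^ 2) * n ^ 2 - 2 * (1 / 4 - ζ ^ 2) * n ^ 2 ≤
        (Es G U : ℝ) - 2 * (1 / 4 - ζ ^ 2) * u ^ 2 := by linarith
  have hu1 : ζ * n ≤ u := by
    have h0 : (ζ * n) ^ 2 ≤ u ^ 2 := by
      rw [mul_pow]
      exact alg_u1 ζ θ n u _ (by linarith) hEU hδ hζn h3
    exact le_of_sq_le_sq h0 hu0
  have hupp := upper G hK5 a 8192 k (by norm_num) ha hk U θ hθ hθ1 (by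
    rw [← hu, ← hb]
    have h1 : θ * (ζ * n) ≤ θ * u := mul_le_mul_of_nonneg_left hu1 hθ.le
    have h2 : θ * (ζ * n) = θ * ζ * n := by ring
    linarith) (by
    rw [← hu]
    have h1 : 4 * θ ^ 3 * (ζ * n) ≤ 4 * θ ^ 3 * u := mul_le_mul_of_nonneg_left hu1 (by positivity)
    have h2 : 4 * θ ^ 3 * (ζ * n) = 4 * θ ^ 3 * ζ * n := by ring
    linarith)
  rw [← hu] at hupp
  have hu2 : (1 - γ / 4) * n ≤ u :=
    le_of_sq_le_sq (alg_u2 γ ζ θ n u _ hγ hγ1 hζ hθ2 hupp h3) hu0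
  have hupos : 100 < u := by linarith
  have hUne : U.Nonempty := by
    rw [← Finset.card_pos]
    have : (0:ℝ) < u := by linarith
    rw [hu] at this
    exact_mod_cast this
  have hUV : U.card ^ 2 < 8192 ^ k :=
    lt_of_le_of_lt (Nat.pow_le_pow_left (Finset.card_le_univ _) 2) hk
  have hD4 : u * 49 / 100 - 1 / 4 ≤ (1 / 4 - ζ ^ 2) * (2 * u - 1) := by
    have h1 : ζ ^ 2 * u ≤ 1 / 400000 * u := mul_le_mul_of_nonneg_right hζs hu0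
    have h2 : 0 ≤ ζ ^ 2 := sq_nonneg _
    linarith
  obtain ⟨X, -, hX1, hX2, -⟩ := structure_thm G hK5 U a ((1 / 4 - ζ ^ 2) * (2 * U.card - 1))
    ha hUne hmin (by rw [← hu]; linarith) 8192 k (by norm_num) hUV (by rw [← hu, ← hb]; linarith)
  refine ⟨X, hX1, ?_⟩
  rw [← hu] at hX2
  push_cast at hX2
  exact alg_fin γ ζ n u a b _ hγ hγ1 hζ2 hu0 hn0 ha0 haK f4 hu2 hX2

/-- The numerical parameters: `k` exists whenever `a ≤ 8 (t+1)^4` with `t ≈ n^{1/6}`. -/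
lemma params (C : ℕ) : ∃ n0 : ℕ, ∀ n ≥ n0, ∀ a : ℕ, a ≤ Q 3 n →
    ∃ k : ℕ, n ^ 2 < 8192 ^ k ∧ C * (2 ^ k * a + 1) ≤ n := by
  refine ⟨(2 ^ 25 + 129 * C + 1) ^ 6, ?_⟩
  intro n hn a ha
  obtain ⟨t, ht1, ht2⟩ : ∃ t : ℕ, t ^ 6 ≤ n ∧ n < (t + 1) ^ 6 := by
    have hex : ∃ s : ℕ, n < (s + 1) ^ 6 := ⟨n, by
      calc n < n + 1 := Nat.lt_succ_self n
        _ = (n + 1) ^ 1 := (pow_one _).symm
        _ ≤ (n + 1) ^ 6 := Nat.pow_le_pow_right (by omega) (by norm_num)⟩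
    refine ⟨Nat.find hex, ?_, Nat.find_spec hex⟩
    rcases Nat.eq_zero_or_pos (Nat.find hex) with h0 | hpos
    · rw [h0]; simp
    · have := Nat.find_min hex (m := Nat.find hex - 1) (by omega)
      push Not at this
      rwa [Nat.sub_add_cancel hpos] at this
  have htbig : 2 ^ 25 + 129 * C + 1 ≤ t := by
    by_contra hcon
    push Not at hcon
    have : (t + 1) ^ 6 ≤ (2 ^ 25 + 129 * C + 1) ^ 6 := Nat.pow_le_pow_left (by omega) 6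
    omega
  have haQ : a ≤ 8 * (t + 1) ^ 4 := ha.trans (Q_poly n t ht2)
  have ht0 : t ≠ 0 := by omega
  refine ⟨Nat.log 2 t, ?_, ?_⟩
  · have h1 : t < 2 ^ (Nat.log 2 t + 1) := Nat.lt_pow_succ_log_self (by norm_num) t
    have h2 : t ^ 13 < 2 ^ 13 * 8192 ^ (Nat.log 2 t) := by
      calc t ^ 13 < (2 ^ (Nat.log 2 t + 1)) ^ 13 := Nat.pow_lt_pow_left h1 (by norm_num)
        _ = 2 ^ 13 * 8192 ^ (Nat.log 2 t) := by
          rw [← pow_mul, add_mul, pow_add, mul_comm (Nat.log 2 t) 13, pow_mul]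
          norm_num
          ring
    have h3 : n ^ 2 < 2 ^ 12 * t ^ 12 := by
      calc n ^ 2 < ((t + 1) ^ 6) ^ 2 := Nat.pow_lt_pow_left ht2 (by norm_num)
        _ ≤ ((2 * t) ^ 6) ^ 2 := by
          apply Nat.pow_le_pow_left
          apply Nat.pow_le_pow_left
          omega
        _ = 2 ^ 12 * t ^ 12 := by ring
    have h4 : 2 ^ 25 * t ^ 12 ≤ t ^ 13 := by
      calc 2 ^ 25 * t ^ 12 ≤ t * t ^ 12 := Nat.mul_le_mul_right _ (by omega)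
        _ = t ^ 13 := by ring
    have h5 : 2 ^ 13 * n ^ 2 < 2 ^ 13 * 8192 ^ (Nat.log 2 t) := by
      calc 2 ^ 13 * n ^ 2 ≤ 2 ^ 13 * (2 ^ 12 * t ^ 12) := Nat.mul_le_mul_left _ h3.le
        _ = 2 ^ 25 * t ^ 12 := by ring
        _ ≤ t ^ 13 := h4
        _ < _ := h2
    exact lt_of_mul_lt_mul_left h5 (Nat.zero_le _)
  · have h1 : 2 ^ (Nat.log 2 t) ≤ t := Nat.pow_log_le_self 2 ht0
    calc C * (2 ^ (Nat.log 2 t) * a + 1) ≤ C * (t * (8 * (t + 1) ^ 4) + 1) := by gcongr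
      _ ≤ C * (t * (8 * (2 * t) ^ 4) + 1) := by gcongr; omega
      _ = C * (128 * t ^ 5 + 1) := by ring
      _ ≤ C * (129 * t ^ 5) := by
          apply Nat.mul_le_mul_left
          have : 1 ≤ t ^ 5 := Nat.one_le_pow _ _ (by omega)
          omega
      _ = (129 * C) * t ^ 5 := by ring
      _ ≤ t * t ^ 5 := Nat.mul_le_mul_right _ (by omega)
      _ = t ^ 6 := by ring
      _ ≤ n := ht1

/-- Stability with the polynomial bound on `Q 3 n` built in. -/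
theorem stab_Q (γ : ℝ) (hγ : 0 < γ) (hγ1 : γ ≤ 1 / 2) :
    ∃ δ : ℝ, 0 < δ ∧ ∃ n0 : ℕ, ∀ n ≥ n0, ∀ (G : SimpleGraph (Fin n)) (a : ℕ),
      G.CliqueFree 5 → a ≤ Q 3 n →
      (∀ S : Finset (Fin n), (∀ x ∈ S, ∀ y ∈ S, ¬ G.Adj x y) → S.card ≤ a) →
      (1 / 2 - 2 * δ) * (n : ℝ) ^ 2 ≤ Es G Finset.univ →
      ∀ m : ℕ, (m : ℝ) ≤ (1 / 2 - γ) * n → Q 3 m ≤ a := by
  obtain ⟨δ, hδ, C, hC, h⟩ := stab γ hγ hγ1
  obtain ⟨n0, hn0⟩ := params C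
  refine ⟨δ, hδ, n0, ?_⟩
  intro n hn G a hK5 haQ ha hE m hm
  obtain ⟨k, hk1, hk2⟩ := hn0 n hn a haQ
  obtain ⟨X, hX1, hX2⟩ := h G a k hK5 ha (by simpa using hk1) (by simpa using hk2)
    (by simpa using hE)
  rw [Q_le_iff]
  apply TF_of_finset G X m a _ hX1 ha
  have : (m : ℝ) ≤ X.card := by
    refine hm.trans ?_
    simpa using hX2
  exact_mod_cast this

end Pool.Agent.TH437.RTK
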