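import Mathlib
import Pool.Agent.TH437.RTK.Stab

set_option autoImplicit false
set_option linter.unusedVariables false
set_option linter.unusedSimpArgs false
set_option linter.unusedSectionVars false
set_option maxHeartbeats 4000000
open Classical Finset

namespace Pool.Agent.TH437.RTK

/-- `RT n t f`: the largest number of edges of a graph on `n` vertices without `K_t` whose
independence number is less than `f`. -/
noncomputable def RT (n t : ℕ) (f : ℝ) : ℕ :=
  sSup {e | ∃ G : SimpleGraph (Fin n), G.CliqueFree t ∧ (G.indepNum : ℝ) < f ∧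
    G.edgeSet.ncard = e}

lemma RT_le (n t : ℕ) (f : ℝ) (B : ℝ) (hB : 0 ≤ B)
    (h : ∀ G : SimpleGraph (Fin n), G.CliqueFree t → (G.indepNum : ℝ) < f →
      (G.edgeSet.ncard : ℝ) ≤ B) : (RT n t f : ℝ) ≤ B := by
  have h1 : RT n t f ≤ ⌊B⌋₊ := by
    unfold RT
    rcases Set.eq_empty_or_nonempty {e | ∃ G : SimpleGraph (Fin n), G.CliqueFree t ∧
      (G.indepNum : ℝ) < f ∧ G.edgeSet.ncard = e} with he | hne
    · rw [he]; simp
    · apply csSup_le hne
      rintro e ⟨G, h1, h2, rfl⟩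
      exact Nat.le_floor (h G h1 h2)
  calc (RT n t f : ℝ) ≤ (⌊B⌋₊ : ℝ) := by exact_mod_cast h1
    _ ≤ B := Nat.floor_le hB

lemma Es_eq (n : ℕ) (G : SimpleGraph (Fin n)) :
    Es G Finset.univ = 2 * G.edgeSet.ncard := by
  have h1 : ∀ x, dg G Finset.univ x = G.degree x := by
    intro x
    unfold dg
    rw [← SimpleGraph.card_neighborFinset_eq_degree]
    congr 1
    ext y
    simp
  unfold Es
  rw [Finset.sum_congr rfl (fun x _ => h1 x), SimpleGraph.sum_degrees_eq_twice_card_edges]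
  congr 1
  rw [Set.ncard_eq_toFinset_card']
  rfl

lemma edges_le (n : ℕ) (G : SimpleGraph (Fin n)) : (G.edgeSet.ncard : ℝ) ≤ (n : ℝ) ^ 2 / 2 := by
  have h1 := Es_eq n G
  have h2 := Es_le_sq G Finset.univ
  rw [h1] at h2
  simp only [Finset.card_univ, Fintype.card_fin] at h2
  push_cast at h2
  linarith

/-- the ratio whose upper and lower limits are the Ramsey-Turan densities -/
noncomputable def ratio (c : ℝ) (n : ℕ) : ℝ := (RT n 5 (c * (Q 3 (n / 2) : ℝ)) : ℝ) / (n : ℝ) ^ 2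

lemma ratio_nonneg (c : ℝ) (n : ℕ) : 0 ≤ ratio c n := by
  unfold ratio; positivity

lemma ratio_le (c : ℝ) (n : ℕ) : ratio c n ≤ 1 := by
  unfold ratio
  rcases Nat.eq_zero_or_pos n with rfl | hn
  · simp
  rw [div_le_one (by positivity)]
  apply RT_le _ _ _ _ (by positivity)
  intro G _ _
  have := edges_le n G
  have h2 : 0 ≤ (n : ℝ) ^ 2 := by positivity
  linarith

/-- The drop criterion. -/
lemma drop (c γ : ℝ) (hγ : 0 < γ) (hγ1 : γ ≤ 1 / 2) (hc1 : c ≤ 1) :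
    ∃ δ : ℝ, 0 < δ ∧ δ ≤ 1 / 4 ∧ ∃ n0 : ℕ, ∀ n ≥ n0, ∀ m : ℕ, (m : ℝ) ≤ (1 / 2 - γ) * n →
      c * (Q 3 (n / 2) : ℝ) ≤ Q 3 m → ratio c n ≤ 1 / 4 - δ := by
  obtain ⟨δ, hδ, n0, h⟩ := stab_Q γ hγ hγ1
  refine ⟨min δ (1 / 4), lt_min hδ (by norm_num), min_le_right _ _, n0 + 1, ?_⟩
  intro n hn m hm hc
  have hnpos : 0 < n := by omega
  unfold ratio
  rw [div_le_iff₀ (by positivity)]
  apply RT_le
  · apply mul_nonneg _ (by positivity)
    have := min_le_right δ (1 / 4)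
    linarith
  intro G hK5 hG
  by_contra hcon
  push Not at hcon
  have hnQ : Q 3 (n / 2) ≤ Q 3 n := Q_mono (Nat.div_le_self _ _)
  have hQ0 : (0 : ℝ) ≤ Q 3 (n / 2) := Nat.cast_nonneg _
  have haQ : G.indepNum ≤ Q 3 n := by
    have h1 : (G.indepNum : ℝ) ≤ Q 3 n := by
      calc (G.indepNum : ℝ) ≤ c * (Q 3 (n / 2) : ℝ) := hG.le
        _ ≤ 1 * (Q 3 (n / 2) : ℝ) := mul_le_mul_of_nonneg_right hc1 hQ0
        _ = (Q 3 (n / 2) : ℝ) := one_mul _
        _ ≤ Q 3 n := by exact_mod_cast hnQ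
    exact_mod_cast h1
  have hind : ∀ S : Finset (Fin n), (∀ x ∈ S, ∀ y ∈ S, ¬ G.Adj x y) → S.card ≤ G.indepNum := by
    intro S hS
    have h1 : G.IsIndepSet (S : Set (Fin n)) := by
      intro x hx y hy _
      exact hS x hx y hy
    exact h1.card_le_indepNum
  have hE : (1 / 2 - 2 * δ) * (n : ℝ) ^ 2 ≤ Es G Finset.univ := by
    rw [Es_eq]
    push_cast
    have h1 : min δ (1 / 4) * (n : ℝ) ^ 2 ≤ δ * (n : ℝ) ^ 2 :=
      mul_le_mul_of_nonneg_right (min_le_left _ _) (by positivity)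
    linarith
  have := h n (by omega) G G.indepNum hK5 haQ hind hE m hm
  have h2 : (Q 3 m : ℝ) ≤ G.indepNum := by exact_mod_cast this
  linarith

end Pool.Agent.TH437.RTK
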