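import Mathlib
import Pool.Agent.TH437.RTK.Defs

set_option autoImplicit false
set_option linter.unusedVariables false
set_option linter.unusedSimpArgs false
set_option linter.unusedSectionVars false
set_option maxHeartbeats 4000000
open Classical Finset Filter

namespace Pool.Agent.TH437.RTK

lemma limsup_lt (c B : ℝ) (hB : B < 1 / 4) (h : ∃ n0 : ℕ, ∀ n ≥ n0, ratio c n ≤ B) :
    limsup (ratio c) atTop < 1 / 4 := by
  obtain ⟨n0, h⟩ := h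
  refine lt_of_le_of_lt ?_ hB
  apply limsup_le_of_le
  · exact isCoboundedUnder_le_of_le atTop (x := 0) (fun n => ratio_nonneg c n)
  · exact eventually_atTop.2 ⟨n0, h⟩

lemma liminf_lt (c B : ℝ) (hB : B < 1 / 4) (h : ∀ N : ℕ, ∃ n ≥ N, ratio c n ≤ B) :
    liminf (ratio c) atTop < 1 / 4 := by
  refine lt_of_le_of_lt ?_ hB
  apply liminf_le_of_frequently_le
  · rw [frequently_atTop]
    exact h
  · exact isBoundedUnder_of ⟨0, fun n => ratio_nonneg c n⟩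

/-- for `c ≤ 1/2` the upper density is below `1/4` -/
theorem upper_half (c : ℝ) (hc0 : 0 < c) (hc : c ≤ 1 / 2) : limsup (ratio c) atTop < 1 / 4 := by
  obtain ⟨δ, hδ, hδ1, n0, h⟩ := drop c (1 / 5) (by norm_num) (by norm_num) (by linarith)
  apply limsup_lt c (1 / 4 - δ) (by linarith)
  refine ⟨n0 + 100, ?_⟩
  intro n hn
  have hm : (((n / 2 + 1) / 2 : ℕ) : ℝ) ≤ (1 / 2 - 1 / 5) * n := by
    have h1 : 10 * ((n / 2 + 1) / 2) ≤ 3 * n := by omega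
    have h2 : (10 : ℝ) * (((n / 2 + 1) / 2 : ℕ) : ℝ) ≤ 3 * n := by exact_mod_cast h1
    linarith
  apply h n (by omega) ((n / 2 + 1) / 2) hm
  have h3 : Q 3 (n / 2) ≤ Q 3 ((n / 2 + 1) / 2) + Q 3 ((n / 2 + 1) / 2) :=
    (Q_mono (by omega)).trans (Q_add _ _)
  have h4 : (Q 3 (n / 2) : ℝ) ≤ 2 * Q 3 ((n / 2 + 1) / 2) := by
    have : Q 3 (n / 2) ≤ 2 * Q 3 ((n / 2 + 1) / 2) := by omega
    exact_mod_cast this
  have h5 : (0 : ℝ) ≤ Q 3 (n / 2) := Nat.cast_nonneg _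
  nlinarith

/-- `Q 3` cannot be flat on all scales -/
lemma scale (ε : ℝ) (hε : 0 < ε) (s : ℕ) (hs : 2 ≤ ε * s) (N : ℕ) :
    ∃ j ≥ N, 1 ≤ j ∧ (Q 3 ((s ^ 2) ^ (j - 1)) : ℝ) ≤ ε * Q 3 ((s ^ 2) ^ j) := by
  by_contra hcon
  push Not at hcon
  have hs0 : (0 : ℝ) < s := by
    by_contra h
    push Not at h
    nlinarith
  have hs1 : 1 ≤ s := by
    have : 0 < s := by exact_mod_cast hs0
    exact this
  -- growth
  have hgrow : ∀ i : ℕ, (Q 3 ((s ^ 2) ^ (N + i)) : ℝ) * 2 ^ i ≤ s ^ i * Q 3 ((s ^ 2) ^ N) := by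
    intro i
    induction i with
    | zero => simp
    | succ i ih =>
      have h1 := hcon (N + (i + 1)) (by omega) (by omega)
      rw [show N + (i + 1) - 1 = N + i from by omega] at h1
      have h2 : (Q 3 ((s ^ 2) ^ (N + (i + 1))) : ℝ) * 2 ≤ s * Q 3 ((s ^ 2) ^ (N + i)) := by
        have hq : (0 : ℝ) ≤ Q 3 ((s ^ 2) ^ (N + (i + 1))) := Nat.cast_nonneg _
        have h3 : (s : ℝ) * (ε * Q 3 ((s ^ 2) ^ (N + (i + 1)))) ≤ s * Q 3 ((s ^ 2) ^ (N + i)) :=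
          mul_le_mul_of_nonneg_left h1.le hs0.le
        have h4 : 2 * (Q 3 ((s ^ 2) ^ (N + (i + 1))) : ℝ) ≤
            (ε * s) * Q 3 ((s ^ 2) ^ (N + (i + 1))) := mul_le_mul_of_nonneg_right hs hq
        calc (Q 3 ((s ^ 2) ^ (N + (i + 1))) : ℝ) * 2 = 2 * (Q 3 ((s ^ 2) ^ (N + (i + 1))) : ℝ) := by
              ring
          _ ≤ (ε * s) * Q 3 ((s ^ 2) ^ (N + (i + 1))) := h4
          _ = s * (ε * Q 3 ((s ^ 2) ^ (N + (i + 1)))) := by ring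
          _ ≤ _ := h3
      calc (Q 3 ((s ^ 2) ^ (N + (i + 1))) : ℝ) * 2 ^ (i + 1)
          = (Q 3 ((s ^ 2) ^ (N + (i + 1))) : ℝ) * 2 * 2 ^ i := by ring
        _ ≤ (s * Q 3 ((s ^ 2) ^ (N + i))) * 2 ^ i :=
            mul_le_mul_of_nonneg_right h2 (by positivity)
        _ = s * ((Q 3 ((s ^ 2) ^ (N + i)) : ℝ) * 2 ^ i) := by ring
        _ ≤ s * (s ^ i * Q 3 ((s ^ 2) ^ N)) := mul_le_mul_of_nonneg_left ih hs0.le
        _ = s ^ (i + 1) * Q 3 ((s ^ 2) ^ N) := by ring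
  -- lower bound
  have hlow : ∀ j : ℕ, (s : ℝ) ^ j ≤ Q 3 ((s ^ 2) ^ j) + 1 := by
    intro j
    have h1 := TF_sq (TF_Q ((s ^ 2) ^ j))
    have h2 : (s ^ j) ^ 2 ≤ (Q 3 ((s ^ 2) ^ j) + 1) ^ 2 := by
      calc (s ^ j) ^ 2 = (s ^ 2) ^ j := by rw [← pow_mul, ← pow_mul, mul_comm]
        _ ≤ Q 3 ((s ^ 2) ^ j) * (Q 3 ((s ^ 2) ^ j) + 1) := h1
        _ ≤ (Q 3 ((s ^ 2) ^ j) + 1) ^ 2 := by nlinarith
    have h3 : s ^ j ≤ Q 3 ((s ^ 2) ^ j) + 1 := by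
      by_contra hlt
      push Not at hlt
      have := Nat.pow_lt_pow_left hlt (n := 2) (by norm_num)
      omega
    exact_mod_cast h3
  -- contradiction
  set Q0 : ℝ := ((Q 3 ((s ^ 2) ^ N) : ℕ) : ℝ) with hQ0
  have hQ0n : 0 ≤ Q0 := Nat.cast_nonneg _
  obtain ⟨i, hi⟩ := pow_unbounded_of_one_lt (Q0 + 2) (by norm_num : (1 : ℝ) < 2)
  have h1 := hgrow i
  have h2 := hlow (N + i)
  have hsi : (1 : ℝ) ≤ (s : ℝ) ^ i := one_le_pow₀ (by exact_mod_cast hs1)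
  have hsN : (1 : ℝ) ≤ (s : ℝ) ^ N := one_le_pow₀ (by exact_mod_cast hs1)
  have h3 : (s : ℝ) ^ i ≤ Q 3 ((s ^ 2) ^ (N + i)) + 1 := by
    have : (s : ℝ) ^ i ≤ (s : ℝ) ^ (N + i) := by
      rw [pow_add]; nlinarith
    linarith
  have h2i : (0 : ℝ) < 2 ^ i := by positivity
  have h4 : (s : ℝ) ^ i * 2 ^ i ≤ s ^ i * Q0 + 2 ^ i := by
    have := mul_le_mul_of_nonneg_right h3 h2i.le
    nlinarith
  have h5 : (s : ℝ) ^ i * (Q0 + 2) < s ^ i * 2 ^ i := mul_lt_mul_of_pos_left hi (by linarith)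
  -- if s = 1 is excluded: 2^i ≤ s^i
  have hs2 : (2 : ℝ) ^ i ≤ 2 * s ^ i ∨ (s : ℝ) ^ i * 2 ^ i ≤ s ^ i * Q0 + 2 ^ i := Or.inr h4
  have h6 : (s : ℝ) ^ i * (2 ^ i - Q0) ≤ 2 ^ i := by linarith
  by_cases hsge : 2 ≤ s
  · have h7 : (2 : ℝ) ^ i ≤ s ^ i := pow_le_pow_left₀ (by norm_num) (by exact_mod_cast hsge) i
    nlinarith
  · have hs1' : s = 1 := by omega
    -- then Q 3 1 ≤ ... contradiction with strict inequality
    have h8 := hcon (N + 1) (by omega) (by omega)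
    rw [hs1'] at h8 hs
    simp only [one_pow] at h8
    have h9 : (0 : ℝ) ≤ Q 3 1 := Nat.cast_nonneg _
    push_cast at hs
    nlinarith

/-- for every `c < 1` the lower density is below `1/4` -/
theorem lower_all (c : ℝ) (hc0 : 0 < c) (hc : c < 1) : liminf (ratio c) atTop < 1 / 4 := by
  obtain ⟨s, hs⟩ := exists_nat_gt (2 / (1 - c))
  have hε : 0 < 1 - c := by linarith
  rw [div_lt_iff₀ hε] at hs
  have hs2 : 2 ≤ s := by
    have : (2 : ℝ) < s := by nlinarith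
    have : 2 < s := by exact_mod_cast this
    omega
  have hsR : (2 : ℝ) ≤ s := by exact_mod_cast hs2
  have hγ : 0 < 1 / (4 * (s : ℝ) ^ 2) := by positivity
  have hγ1 : 1 / (4 * (s : ℝ) ^ 2) ≤ 1 / 2 := by
    rw [div_le_div_iff₀ (by positivity) (by norm_num)]
    nlinarith
  obtain ⟨δ, hδ, hδ1, n0, h⟩ := drop c (1 / (4 * (s : ℝ) ^ 2)) hγ hγ1 hc.le
  apply liminf_lt c (1 / 4 - δ) (by linarith)
  intro N
  obtain ⟨j, hj, hj1, hjQ⟩ := scale (1 - c) hε s (by linarith) (N + n0)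
  have hjle : j < (s ^ 2) ^ j := Nat.lt_pow_self (by nlinarith)
  refine ⟨2 * (s ^ 2) ^ j, by omega, ?_⟩
  have hpow : (s ^ 2) ^ j = s ^ 2 * (s ^ 2) ^ (j - 1) := by
    rw [← pow_succ']; congr 1; omega
  have hle : (s ^ 2) ^ (j - 1) ≤ (s ^ 2) ^ j := Nat.pow_le_pow_right (by positivity) (by omega)
  apply h (2 * (s ^ 2) ^ j) (by omega) ((s ^ 2) ^ j - (s ^ 2) ^ (j - 1))
  · rw [Nat.cast_sub hle]
    have h1 : (((s ^ 2) ^ j : ℕ) : ℝ) = (s : ℝ) ^ 2 * (((s ^ 2) ^ (j - 1) : ℕ) : ℝ) := by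
      rw [hpow]; push_cast; ring
    have hs0 : (0:ℝ) < (s : ℝ) ^ 2 := by positivity
    have h2 : (((s ^ 2) ^ (j - 1) : ℕ) : ℝ) = (((s ^ 2) ^ j : ℕ) : ℝ) / (s : ℝ) ^ 2 := by
      rw [h1]; field_simp
    have h3 : (0:ℝ) ≤ (((s ^ 2) ^ j : ℕ) : ℝ) := Nat.cast_nonneg _
    rw [h2]
    have h4 : ((2 * (s ^ 2) ^ j : ℕ) : ℝ) = 2 * (((s ^ 2) ^ j : ℕ) : ℝ) := by push_cast; ring
    rw [h4]
    have h5 : (1 / 2 - 1 / (4 * (s : ℝ) ^ 2)) * (2 * (((s ^ 2) ^ j : ℕ) : ℝ)) =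
        (((s ^ 2) ^ j : ℕ) : ℝ) - (((s ^ 2) ^ j : ℕ) : ℝ) / (s : ℝ) ^ 2 / 2 := by
      field_simp
      ring
    rw [h5]
    have h6 : 0 ≤ (((s ^ 2) ^ j : ℕ) : ℝ) / (s : ℝ) ^ 2 := by positivity
    linarith
  · rw [show 2 * (s ^ 2) ^ j / 2 = (s ^ 2) ^ j from by omega]
    have h1 : Q 3 ((s ^ 2) ^ j) ≤ Q 3 ((s ^ 2) ^ j - (s ^ 2) ^ (j - 1)) + Q 3 ((s ^ 2) ^ (j - 1)) := by
      have := Q_add ((s ^ 2) ^ j - (s ^ 2) ^ (j - 1)) ((s ^ 2) ^ (j - 1))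
      rwa [Nat.sub_add_cancel hle] at this
    have h2 : (Q 3 ((s ^ 2) ^ j) : ℝ) ≤ Q 3 ((s ^ 2) ^ j - (s ^ 2) ^ (j - 1)) +
        Q 3 ((s ^ 2) ^ (j - 1)) := by exact_mod_cast h1
    linarith

end Pool.Agent.TH437.RTK
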